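import Pool.Agent.H32.UA.Gen

set_option autoImplicit false

namespace Pool.Agent.H32.UA

open Finset

lemma card2 : ((range (42197 + 1)).filter (G [5, 7] [3] 42197)).card = 2757 :=
  card_G [5, 7] [3] 42197 2757 15 (by norm_num) (by decide +kernel)

lemma num2 : (∏ v ∈ (range (205 + 1)).filter (fun v => bad [5, 7] v = true), (1 + 1 / ((v ^ 2 : ℕ) : ℝ))) *
    ∏ v ∈ (range (42197 + 1)).filter (G [5, 7] [3] 42197), (1 + 1 / (v : ℝ)) ≤ 4 :=
  num_G [5, 7] [3] 42197 205 15 7 (by norm_num) (by norm_num) (by decide +kernel)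

end Pool.Agent.H32.UA
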