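import Pool.Agent.H32.UA.Gen

set_option autoImplicit false

namespace Pool.Agent.H32.UA

open Finset

lemma card6 : ((range (24971 + 1)).filter (G [] [] 24971)).card = 2758 :=
  card_G [] [] 24971 2758 14 (by norm_num) (by decide +kernel)

lemma big6 : 10 ^ 10763 ≤ ∏ v ∈ (range (24971 + 1)).filter (G [] [] 24971), v := by
  rw [bq_filter (g [] []) (fun v => v) 24971 14 (by norm_num) (G [] [] 24971) (G_iff [] [] 24971) (g_odd [] [])]
  decide +kernel

end Pool.Agent.H32.UA
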