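import Pool.Agent.H32.UA.N1
import Pool.Agent.H32.UA.N2
import Pool.Agent.H32.UA.N3
import Pool.Agent.H32.UA.N4
import Pool.Agent.H32.UA.N5
import Pool.Agent.H32.UA.N6

/-!
# Relatively prime unitary amicable pairs: at least `2758` primes
-/

set_option autoImplicit false

namespace Pool.Agent.H32.UA

open Finset
open Pool.Helper793.Unitary

theorem use {m n : ℕ} (hm : 0 < m) (hn : 0 < n) (hne : m ≠ n) (hc : Nat.Coprime m n)
    (h1 : sstar m = m + n) (h2 : sstar n = m + n) (D E : List ℕ) (M L : ℕ) (hM : 0 < M)
    (hL : M < (L + 1) ^ 2) (hD : ∀ q ∈ D, q.Prime ∧ q ∣ m * n) (hE : ∀ q ∈ E, ¬ q ∣ m * n)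
    (hcard : ((range (M + 1)).filter (G D E M)).card = 2757)
    (hprod : (∏ v ∈ (range (L + 1)).filter (fun v => bad D v = true), (1 + 1 / ((v ^ 2 : ℕ) : ℝ))) *
      ∏ v ∈ (range (M + 1)).filter (G D E M), (1 + 1 / (v : ℝ)) ≤ 4) :
    2758 ≤ (m * n).primeFactors.card := by
  have hmo := odd_of hm hn hc h2
  have hno := odd_of hn hm hc.symm (by rw [h1, add_comm])
  have hNodd : Odd (m * n) := hmo.mul hno
  have hgt := prod_gt hm hn hne hc h1 h2
  by_contra hcon
  push Not at hcon
  have hpr : ∀ p ∈ (m * n).primeFactors, p.Prime := fun p hp => Nat.prime_of_mem_primeFactors hp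
  have hge1 : ∀ p ∈ (m * n).primeFactors, 1 ≤ (m * n).factorization p := fun p hp => by
    have := expo_pos hp
    omega
  have := case_le D E M L hM hL (m * n).primeFactors (fun p => (m * n).factorization p) hpr
    (by
      intro p hp
      have hodd : Odd p := hNodd.of_dvd_nat (Nat.mem_primeFactors.1 hp).2.1
      have h2' := (hpr p hp).two_le
      rcases hodd with ⟨t, ht⟩
      omega)
    hge1
    (fun p hp hpE => hE p hpE (Nat.mem_primeFactors.1 hp).2.1)
    (by
      intro p hp q hq hqp
      by_contra h4
      have h5 : (m * n).factorization p = 1 := by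
        have := hge1 p hp
        omega
      have h6 := no_minus_one hc h1 h2 q (hD q hq).1 (hD q hq).2 p hp
      rw [h5, pow_one, add_comm] at h6
      exact h6 hqp)
    (by omega) hprod
  linarith

theorem main2758 {m n : ℕ} (hm : 0 < m) (hn : 0 < n) (hne : m ≠ n) (hc : Nat.Coprime m n)
    (h1 : sstar m = m + n) (h2 : sstar n = m + n) :
    2758 ≤ (m * n).primeFactors.card ∧ 10 ^ 10763 ≤ m * n := by
  have key : 2758 ≤ (m * n).primeFactors.card := by
    by_cases c3 : 3 ∣ m * n
    · exact use hm hn hne hc h1 h2 [3] [] 54421 233 (by norm_num) (by norm_num)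
        (by
          intro q hq
          simp only [List.mem_cons, List.not_mem_nil, or_false] at hq
          subst hq
          exact ⟨Nat.prime_three, c3⟩)
        (by intro q hq; simp at hq) card1 num1
    by_cases c5 : 5 ∣ m * n
    · by_cases c7 : 7 ∣ m * n
      · exact use hm hn hne hc h1 h2 [5, 7] [3] 42197 205 (by norm_num) (by norm_num)
          (by
            intro q hq
            simp only [List.mem_cons, List.not_mem_nil, or_false] at hq
            rcases hq with rfl | rfl
            · exact ⟨by norm_num, c5⟩
            · exact ⟨by norm_num, c7⟩)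
          (by
            intro q hq
            simp only [List.mem_cons, List.not_mem_nil, or_false] at hq
            subst hq
            exact c3) card2 num2
      · exact use hm hn hne hc h1 h2 [5] [3, 7] 34313 185 (by norm_num) (by norm_num)
          (by
            intro q hq
            simp only [List.mem_cons, List.not_mem_nil, or_false] at hq
            subst hq
            exact ⟨by norm_num, c5⟩)
          (by
            intro q hq
            simp only [List.mem_cons, List.not_mem_nil, or_false] at hq
            rcases hq with rfl | rfl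
            · exact c3
            · exact c7) card3 num3
    by_cases c7 : 7 ∣ m * n
    · exact use hm hn hne hc h1 h2 [7] [3, 5] 30727 175 (by norm_num) (by norm_num)
        (by
          intro q hq
          simp only [List.mem_cons, List.not_mem_nil, or_false] at hq
          subst hq
          exact ⟨by norm_num, c7⟩)
        (by
          intro q hq
          simp only [List.mem_cons, List.not_mem_nil, or_false] at hq
          rcases hq with rfl | rfl
          · exact c3
          · exact c5) card4 num4
    · exact use hm hn hne hc h1 h2 [] [3, 5, 7] 24979 158 (by norm_num) (by norm_num)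
        (by intro q hq; simp at hq)
        (by
          intro q hq
          simp only [List.mem_cons, List.not_mem_nil, or_false] at hq
          rcases hq with rfl | rfl | rfl
          · exact c3
          · exact c5
          · exact c7) card5 num5
  refine ⟨key, ?_⟩
  have hmo := odd_of hm hn hc h2
  have hno := odd_of hn hm hc.symm (by rw [h1, add_comm])
  have hNodd : Odd (m * n) := hmo.mul hno
  have hN0 : 0 < m * n := Nat.mul_pos hm hn
  have e1 := exch' (G [] [] 24971) 24971 (by norm_num) (m * n).primeFactors
    (by
      intro p hp
      have hpp := Nat.prime_of_mem_primeFactors hp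
      have hodd : Odd p := hNodd.of_dvd_nat (Nat.mem_primeFactors.1 hp).2.1
      have h3 : 3 ≤ p := by
        have h2' := hpp.two_le
        rcases hodd with ⟨t, ht⟩
        omega
      right
      unfold g
      rw [isP_of hpp h3]
      rfl)
    (by rw [card6]; exact key)
  exact big6.trans (e1.trans (Nat.le_of_dvd hN0 (Nat.prod_primeFactors_dvd _)))

end Pool.Agent.H32.UA
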