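import Pool.Graph.R_seed8.Helper793.Unitary.Final

/-!
# The case analysis for relatively prime unitary amicable pairs
-/

set_option autoImplicit false

namespace Pool.Agent.H32.UA

open Finset
open Pool.Helper793.Unitary

/-- primes up to `241` -/
def tr : List ℕ := [2, 3, 5, 7, 11, 13, 17, 19, 23, 29, 31, 37, 41, 43, 47, 53, 59, 61, 67, 71, 73, 79, 83, 89, 97,
  101, 103, 107, 109, 113, 127, 131, 137, 139, 149, 151, 157, 163, 167, 173, 179, 181, 191, 193, 197, 199, 211, 223,
  227, 229, 233, 239, 241]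

/-- the product of the elements of `tr` -/
def PP : ℕ := 256041159035492609053110100510385311995538591998443060216114576417920917800321526504084465112487730

/-- no divisor in `tr` except possibly itself, and `v ≥ 3` -/
def isP (v : ℕ) : Bool :=
  Nat.ble 3 v && (Nat.beq (Nat.gcd v PP) 1 || (Nat.ble v 241 && (tr.any fun d => Nat.beq v d)))

/-- `v` is not `-1` modulo an element of `D` -/
def nm (D : List ℕ) (v : ℕ) : Bool := D.all fun q => !(Nat.beq ((v + 1) % q) 0)

/-- `v` is not in `E` -/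
def ni (E : List ℕ) (v : ℕ) : Bool := E.all fun q => !(Nat.beq v q)

/-- the good numbers -/
def g (D E : List ℕ) (v : ℕ) : Bool := isP v && (nm D v && ni E v)

lemma PP_eq : PP = tr.prod := by decide +kernel

lemma tr_prime : ∀ d ∈ tr, d.Prime ∧ d ≤ 241 := by
  intro d hd
  simp only [tr, List.mem_cons, List.not_mem_nil, or_false] at hd
  rcases hd with rfl | rfl | rfl | rfl | rfl | rfl | rfl | rfl | rfl | rfl | rfl | rfl | rfl | rfl | rfl | rfl | rfl | rfl |
    rfl | rfl | rfl | rfl | rfl | rfl | rfl | rfl | rfl | rfl | rfl | rfl | rfl | rfl | rfl | rfl | rfl | rfl | rfl | rfl |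
    rfl | rfl | rfl | rfl | rfl | rfl | rfl | rfl | rfl | rfl | rfl | rfl | rfl | rfl | rfl <;> norm_num

lemma isP_of {v : ℕ} (hp : v.Prime) (h3 : 3 ≤ v) : isP v = true := by
  unfold isP
  rw [Bool.and_eq_true]
  refine ⟨Nat.ble_eq_true_of_le h3, ?_⟩
  rw [Bool.or_eq_true]
  by_cases h : v ∣ PP
  · right
    rw [PP_eq] at h
    obtain ⟨d, hd, hvd⟩ := (Prime.dvd_prod_iff (Nat.prime_iff.1 hp)).1 h
    have h1 := tr_prime d hd
    have h2 : v = d := (Nat.prime_dvd_prime_iff_eq hp h1.1).1 hvd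
    rw [Bool.and_eq_true, List.any_eq_true]
    refine ⟨Nat.ble_eq_true_of_le (by omega), d, hd, ?_⟩
    rw [h2]
    simp
  · left
    have h1 : Nat.gcd v PP = 1 := (Nat.Prime.coprime_iff_not_dvd hp).2 h
    rw [h1]
    rfl

lemma nm_false {D : List ℕ} {v : ℕ} (h : nm D v ≠ true) : ∃ q ∈ D, q ∣ v + 1 := by
  by_contra hcon
  push Not at hcon
  apply h
  unfold nm
  rw [List.all_eq_true]
  intro q hq
  rw [Bool.not_eq_true']
  apply Bool.eq_false_iff.2
  intro hh
  exact hcon q hq (Nat.dvd_of_mod_eq_zero (Nat.eq_of_beq_eq_true hh))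

lemma ni_of {E : List ℕ} {v : ℕ} (h : v ∉ E) : ni E v = true := by
  unfold ni
  rw [List.all_eq_true]
  intro q hq
  rw [Bool.not_eq_true']
  apply Bool.eq_false_iff.2
  intro hh
  have := Nat.eq_of_beq_eq_true hh
  exact h (this ▸ hq)

lemma isP_pos {v : ℕ} (h : isP v = true) : 0 < v := by
  unfold isP at h
  rw [Bool.and_eq_true] at h
  have := Nat.le_of_ble_eq_true h.1
  omega

/-- the good numbers, or large -/
def G (D E : List ℕ) (M v : ℕ) : Prop := M < v ∨ g D E v = true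

instance (D E : List ℕ) (M : ℕ) : DecidablePred (G D E M) := fun v => inferInstanceAs (Decidable (_ ∨ _))

lemma G_pos (D E : List ℕ) (M v : ℕ) (h : G D E M v) : 0 < v := by
  rcases h with h | h
  · omega
  · unfold g at h
    rw [Bool.and_eq_true] at h
    exact isP_pos h.1

/-- the product over a small set of squares: the bad numbers up to `L` -/
def bad (D : List ℕ) (v : ℕ) : Bool := isP v && !(nm D v)

theorem case_le (D E : List ℕ) (M L : ℕ) (hM : 0 < M) (hL : M < (L + 1) ^ 2) (A : Finset ℕ) (e : ℕ → ℕ)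
    (hpr : ∀ p ∈ A, p.Prime) (h3 : ∀ p ∈ A, 3 ≤ p) (he : ∀ p ∈ A, 1 ≤ e p) (hE : ∀ p ∈ A, p ∉ E)
    (hD : ∀ p ∈ A, ∀ q ∈ D, q ∣ p + 1 → 2 ≤ e p)
    (hcard : A.card ≤ ((range (M + 1)).filter (G D E M)).card)
    (hprod : (∏ v ∈ (range (L + 1)).filter (fun v => bad D v = true), (1 + 1 / ((v ^ 2 : ℕ) : ℝ))) *
      ∏ v ∈ (range (M + 1)).filter (G D E M), (1 + 1 / (v : ℝ)) ≤ 4) :
    ∏ p ∈ A, (1 + 1 / ((p ^ e p : ℕ) : ℝ)) ≤ 4 := by
  classical
  set S := (range (L + 1)).filter (fun v => bad D v = true) with hS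
  set v : ℕ → ℕ := fun p => if p ≤ M ∧ g D E p ≠ true then p ^ 2 else p with hv
  have hpos : ∀ x : ℕ, (0 : ℝ) ≤ 1 + 1 / (x : ℝ) := fun x => by positivity
  -- dichotomy
  have hdic : ∀ p ∈ A, g D E p ≠ true → nm D p ≠ true := by
    intro p hp h h'
    apply h
    unfold g
    rw [isP_of (hpr p hp) (h3 p hp), h', ni_of (hE p hp)]
    rfl
  have hle : ∀ p ∈ A, v p ≤ p ^ e p := by
    intro p hp
    simp only [hv]
    split_ifs with h
    · obtain ⟨q, hq, hqp⟩ := nm_false (hdic p hp h.2)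
      exact Nat.pow_le_pow_right (hpr p hp).pos (hD p hp q hq hqp)
    · exact Nat.le_self_pow (by have := he p hp; omega) p
  have hG : ∀ p ∈ A \ S, G D E M (v p) := by
    intro p hp
    rw [mem_sdiff] at hp
    simp only [hv]
    split_ifs with h
    · left
      by_contra hcon
      push Not at hcon
      apply hp.2
      rw [hS, mem_filter, mem_range]
      constructor
      · by_contra h4
        push Not at h4
        have : (L + 1) ^ 2 ≤ p ^ 2 := Nat.pow_le_pow_left h4 2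
        omega
      · unfold bad
        rw [isP_of (hpr p hp.1) (h3 p hp.1), Bool.eq_false_iff.2 (hdic p hp.1 h.2)]
        rfl
    · by_cases h4 : M < p
      · exact Or.inl h4
      · push Not at h4 h
        exact Or.inr (h h4)
  have hinj : Set.InjOn v (A \ S : Finset ℕ) := by
    intro p hp q hq hpq
    have hp' := hpr p (mem_sdiff.1 (mem_coe.1 hp)).1
    have hq' := hpr q (mem_sdiff.1 (mem_coe.1 hq)).1
    simp only [hv] at hpq
    have h5 : p ∣ q ^ 2 := by
      split_ifs at hpq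
      · rw [← hpq]; exact dvd_pow_self p two_ne_zero
      · rw [← hpq] at *; exact dvd_pow (dvd_pow_self p two_ne_zero) two_ne_zero
      · rw [← hpq]
      · rw [← hpq]; exact dvd_pow_self p two_ne_zero
    exact (Nat.prime_dvd_prime_iff_eq hp' hq').1 (hp'.dvd_of_dvd_pow h5)
  have e1 := exch (G D E M) (G_pos D E M) M hM ((A \ S).image v)
    (by
      intro x hx
      obtain ⟨p, hp, rfl⟩ := mem_image.1 hx
      exact hG p hp)
    (by
      rw [card_image_of_injOn hinj]
      exact (card_le_card sdiff_subset).trans hcard)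
  rw [prod_image hinj] at e1
  have e2 : ∏ p ∈ A \ S, (1 + 1 / ((p ^ e p : ℕ) : ℝ)) ≤ ∏ p ∈ A \ S, (1 + 1 / ((v p : ℕ) : ℝ)) := by
    apply prod_le_prod (fun p _ => hpos _)
    intro p hp
    have hpA := (mem_sdiff.1 hp).1
    have h1 : 0 < v p := G_pos D E M _ (hG p hp)
    have h2 : ((v p : ℕ) : ℝ) ≤ ((p ^ e p : ℕ) : ℝ) := by exact_mod_cast hle p hpA
    have h3 : (0 : ℝ) < ((v p : ℕ) : ℝ) := by exact_mod_cast h1
    have := one_div_le_one_div_of_le h3 h2
    linarith
  have e3 : ∏ p ∈ A ∩ S, (1 + 1 / ((p ^ e p : ℕ) : ℝ)) ≤ ∏ p ∈ S, (1 + 1 / ((p ^ 2 : ℕ) : ℝ)) := by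
    calc ∏ p ∈ A ∩ S, (1 + 1 / ((p ^ e p : ℕ) : ℝ)) ≤ ∏ p ∈ A ∩ S, (1 + 1 / ((p ^ 2 : ℕ) : ℝ)) := by
          apply prod_le_prod (fun p _ => hpos _)
          intro p hp
          rw [mem_inter] at hp
          have hpS := (mem_filter.1 hp.2).2
          have hb : nm D p ≠ true := by
            unfold bad at hpS
            rw [Bool.and_eq_true, Bool.not_eq_true'] at hpS
            rw [hpS.2]
            simp
          obtain ⟨q, hq, hqp⟩ := nm_false hb
          have h1 : p ^ 2 ≤ p ^ e p := Nat.pow_le_pow_right (hpr p hp.1).pos (hD p hp.1 q hq hqp)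
          have h2 : ((p ^ 2 : ℕ) : ℝ) ≤ ((p ^ e p : ℕ) : ℝ) := by exact_mod_cast h1
          have h3 : (0 : ℝ) < ((p ^ 2 : ℕ) : ℝ) := by
            have := (hpr p hp.1).pos
            exact_mod_cast (by positivity)
          have := one_div_le_one_div_of_le h3 h2
          linarith
      _ ≤ _ := by
          rw [← prod_sdiff (inter_subset_right : A ∩ S ⊆ S)]
          apply le_mul_of_one_le_left (prod_nonneg fun p _ => hpos _)
          calc (1 : ℝ) = ∏ _p ∈ S \ (A ∩ S), (1 : ℝ) := by rw [prod_const_one]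
            _ ≤ _ := by
              apply prod_le_prod (fun _ _ => zero_le_one)
              intro p _
              have : (0 : ℝ) ≤ 1 / ((p ^ 2 : ℕ) : ℝ) := by positivity
              linarith
  rw [← prod_inter_mul_prod_sdiff A S]
  calc _ ≤ (∏ p ∈ S, (1 + 1 / ((p ^ 2 : ℕ) : ℝ))) * ∏ v ∈ (range (M + 1)).filter (G D E M), (1 + 1 / (v : ℝ)) := by
        apply mul_le_mul e3 (e2.trans e1) (prod_nonneg fun p _ => hpos _)
        exact prod_nonneg fun p _ => hpos _
    _ ≤ 4 := hprod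

/-- product of `f v` over the odd `v = 2 i + 1`, `lo ≤ i < lo + 2 ^ k`, with `gg v` -/
def bq (gg : ℕ → Bool) (f : ℕ → ℕ) (k : ℕ) : ℕ → ℕ :=
  Nat.rec (motive := fun _ => ℕ → ℕ) (fun lo => bif gg (2 * lo + 1) then f (2 * lo + 1) else 1)
    (fun k ih lo => Nat.mul (ih lo) (ih (Nat.add lo (Nat.pow 2 k)))) k

lemma bq_eq (gg : ℕ → Bool) (f : ℕ → ℕ) (k lo : ℕ) :
    bq gg f k lo = ∏ i ∈ Finset.Ico lo (lo + 2 ^ k), if gg (2 * i + 1) then f (2 * i + 1) else 1 := by
  induction k generalizing lo with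
  | zero =>
    simp [bq, Bool.cond_eq_ite]
  | succ k ih =>
    have h : bq gg f (k + 1) lo = bq gg f k lo * bq gg f k (lo + 2 ^ k) := rfl
    have hk : 0 < 2 ^ k := by positivity
    rw [h, ih, ih, Finset.prod_Ico_consecutive _ (Nat.le_add_right _ _) (Nat.le_add_right _ _)]
    congr 2
    rw [pow_succ]
    ring

lemma isP_odd {v : ℕ} (h : isP v = true) : v % 2 = 1 := by
  unfold isP at h
  rw [Bool.and_eq_true, Bool.or_eq_true, Bool.and_eq_true] at h
  obtain ⟨h1, h2 | ⟨-, h3⟩⟩ := h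
  · by_contra hcon
    have h4 : 2 ∣ v := by omega
    have h5 : 2 ∣ PP := by decide +kernel
    have h6 := Nat.dvd_gcd h4 h5
    rw [Nat.eq_of_beq_eq_true h2] at h6
    omega
  · rw [List.any_eq_true] at h3
    obtain ⟨d, hd, hvd⟩ := h3
    have h4 := Nat.eq_of_beq_eq_true hvd
    have h5 := (tr_prime d hd).1
    have h6 := Nat.le_of_ble_eq_true h1
    rcases h5.eq_two_or_odd with h7 | h7
    · omega
    · omega

/-- product of `f i` for the good `i ≤ M`, computed by binary splitting -/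
lemma bq_filter (gg : ℕ → Bool) (f : ℕ → ℕ) (M k : ℕ) (hM : M + 1 ≤ 2 * 2 ^ k)
    (good : ℕ → Prop) [DecidablePred good] (hg : ∀ v < M + 1, good v ↔ gg v = true)
    (hodd : ∀ v, gg v = true → v % 2 = 1) :
    ∏ v ∈ (range (M + 1)).filter good, f v = bq (fun v => Nat.ble v M && gg v) f k 0 := by
  classical
  rw [bq_eq, zero_add, ← Finset.range_eq_Ico, ← Finset.prod_filter]
  have e : (range (M + 1)).filter good =
      ((range (2 ^ k)).filter (fun i => (Nat.ble (2 * i + 1) M && gg (2 * i + 1)) = true)).image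
        (fun i => 2 * i + 1) := by
    ext v
    rw [mem_filter, mem_image, mem_range]
    constructor
    · rintro ⟨h1, h2⟩
      have h3 := (hg v h1).1 h2
      have h4 := hodd v h3
      refine ⟨v / 2, ?_, by omega⟩
      have h5 : 2 * (v / 2) + 1 = v := by omega
      rw [mem_filter, mem_range, h5, Bool.and_eq_true]
      exact ⟨by omega, Nat.ble_eq_true_of_le (by omega), h3⟩
    · rintro ⟨i, hi, rfl⟩
      rw [mem_filter, Bool.and_eq_true] at hi
      have h1 := Nat.le_of_ble_eq_true hi.2.1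
      exact ⟨by omega, (hg _ (by omega)).2 hi.2.2⟩
  rw [e, prod_image]
  intro a _ b _ hab
  simp only at hab
  omega

lemma g_odd (D E : List ℕ) : ∀ v, g D E v = true → v % 2 = 1 := by
  intro v h
  unfold g at h
  rw [Bool.and_eq_true] at h
  exact isP_odd h.1

lemma bad_odd (D : List ℕ) : ∀ v, bad D v = true → v % 2 = 1 := by
  intro v h
  unfold bad at h
  rw [Bool.and_eq_true] at h
  exact isP_odd h.1

lemma G_iff (D E : List ℕ) (M : ℕ) : ∀ v < M + 1, G D E M v ↔ g D E v = true := by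
  intro v hv
  unfold G
  constructor
  · rintro (h | h)
    · omega
    · exact h
  · exact Or.inr

/-- the good numbers up to `M` -/
def gM (D E : List ℕ) (M v : ℕ) : Bool := Nat.ble v M && g D E v

/-- the bad numbers up to `L` -/
def bL (D : List ℕ) (L v : ℕ) : Bool := Nat.ble v L && bad D v

lemma card_G (D E : List ℕ) (M c k : ℕ) (hN : M + 1 ≤ 2 * 2 ^ k)
    (h : bq (gM D E M) (fun _ => 2) k 0 = 2 ^ c) :
    ((range (M + 1)).filter (G D E M)).card = c := by
  have h1 := bq_filter (g D E) (fun _ => 2) M k hN (G D E M) (G_iff D E M) (g_odd D E)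
  have h2 : bq (fun v => Nat.ble v M && g D E v) (fun _ => 2) k 0 = 2 ^ c := h
  rw [h2, Finset.prod_const] at h1
  exact Nat.pow_right_injective le_rfl h1

lemma ratio (P : Finset ℕ) (k : ℕ) (hpos : ∀ v ∈ P, 0 < v) :
    ∏ v ∈ P, (1 + 1 / ((v ^ k : ℕ) : ℝ)) =
      ((∏ v ∈ P, (v ^ k + 1) : ℕ) : ℝ) / ((∏ v ∈ P, v ^ k : ℕ) : ℝ) := by
  rw [Nat.cast_prod, Nat.cast_prod, ← Finset.prod_div_distrib]
  apply Finset.prod_congr rfl
  intro v hv
  have h : (0 : ℝ) < ((v ^ k : ℕ) : ℝ) := by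
    have := hpos v hv
    exact_mod_cast (by positivity)
  rw [Nat.cast_add, Nat.cast_one, add_div, div_self h.ne']

/-- the numerical inequality from natural numbers -/
lemma num_G (D E : List ℕ) (M L k l : ℕ) (hM : M + 1 ≤ 2 * 2 ^ k) (hL : L + 1 ≤ 2 * 2 ^ l)
    (h : bq (bL D L) (fun v => v ^ 2 + 1) l 0 * bq (gM D E M) (fun v => v + 1) k 0 ≤
      4 * (bq (bL D L) (fun v => v ^ 2) l 0 * bq (gM D E M) (fun v => v) k 0)) :
    (∏ v ∈ (range (L + 1)).filter (fun v => bad D v = true), (1 + 1 / ((v ^ 2 : ℕ) : ℝ))) *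
      ∏ v ∈ (range (M + 1)).filter (G D E M), (1 + 1 / (v : ℝ)) ≤ 4 := by
  have q1 : ∏ v ∈ (range (L + 1)).filter (fun v => bad D v = true), (v ^ 2 + 1) =
      bq (bL D L) (fun v => v ^ 2 + 1) l 0 :=
    bq_filter (bad D) (fun v => v ^ 2 + 1) L l hL (fun v => bad D v = true) (fun _ _ => Iff.rfl) (bad_odd D)
  have q2 : ∏ v ∈ (range (L + 1)).filter (fun v => bad D v = true), v ^ 2 =
      bq (bL D L) (fun v => v ^ 2) l 0 :=
    bq_filter (bad D) (fun v => v ^ 2) L l hL (fun v => bad D v = true) (fun _ _ => Iff.rfl) (bad_odd D)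
  have q3 : ∏ v ∈ (range (M + 1)).filter (G D E M), (v + 1) = bq (gM D E M) (fun v => v + 1) k 0 :=
    bq_filter (g D E) (fun v => v + 1) M k hM (G D E M) (G_iff D E M) (g_odd D E)
  have q4 : ∏ v ∈ (range (M + 1)).filter (G D E M), v = bq (gM D E M) (fun v => v) k 0 :=
    bq_filter (g D E) (fun v => v) M k hM (G D E M) (G_iff D E M) (g_odd D E)
  rw [← q1, ← q2, ← q3, ← q4] at h
  have hp1 : ∀ v ∈ (range (L + 1)).filter (fun v => bad D v = true), 0 < v := by
    intro v hv
    have := (mem_filter.1 hv).2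
    unfold bad at this
    rw [Bool.and_eq_true] at this
    exact isP_pos this.1
  have hp2 : ∀ v ∈ (range (M + 1)).filter (G D E M), 0 < v := fun v hv =>
    G_pos D E M v (mem_filter.1 hv).2
  rw [ratio _ 2 hp1]
  have e := ratio _ 1 hp2
  simp only [pow_one] at e
  rw [e, div_mul_div_comm, div_le_iff₀]
  · rw [← Nat.cast_mul, ← Nat.cast_mul]
    exact_mod_cast h
  · have h1 : 0 < ∏ v ∈ (range (L + 1)).filter (fun v => bad D v = true), v ^ 2 :=
      prod_pos fun v hv => by have := hp1 v hv; positivity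
    have h2 : 0 < ∏ v ∈ (range (M + 1)).filter (G D E M), v := prod_pos hp2
    have h3 := Nat.mul_pos h1 h2
    exact_mod_cast h3

end Pool.Agent.H32.UA
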