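import Pool.Agent.H32.UA.Gen

set_option autoImplicit false

namespace Pool.Agent.H32.UA

open Finset

lemma card1 : ((range (54421 + 1)).filter (G [3] [] 54421)).card = 2757 :=
  card_G [3] [] 54421 2757 15 (by norm_num) (by decide +kernel)

lemma num1 : (∏ v ∈ (range (233 + 1)).filter (fun v => bad [3] v = true), (1 + 1 / ((v ^ 2 : ℕ) : ℝ))) *
    ∏ v ∈ (range (54421 + 1)).filter (G [3] [] 54421), (1 + 1 / (v : ℝ)) ≤ 4 :=
  num_G [3] [] 54421 233 15 7 (by norm_num) (by norm_num) (by decide +kernel)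

end Pool.Agent.H32.UA
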